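import Mathlib

set_option autoImplicit false

namespace Pool.Agent.P.MP_51656a_co

open Finset

variable {V : Type*} [DecidableEq V]

theorem cov1 (A B : Finset V) (h : ∀ x, x ∈ A → x ∈ B) : A.card ≤ B.card :=
  card_le_card (fun x hx => h x hx)

theorem cov2 (A B C : Finset V) (h : ∀ x, x ∈ A → x ∈ B ∨ x ∈ C) :
    A.card ≤ B.card + C.card :=
  (card_le_card (fun x hx => mem_union.2 (h x hx))).trans (card_union_le _ _)

theorem cov3 (A B C D : Finset V) (h : ∀ x, x ∈ A → x ∈ B ∨ x ∈ C ∨ x ∈ D) :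
    A.card ≤ B.card + C.card + D.card := by
  have h1 := cov2 A B (C ∪ D) (fun x hx => by simpa using h x hx)
  have h2 := card_union_le C D
  omega

theorem cov4 (A B C D E : Finset V) (h : ∀ x, x ∈ A → x ∈ B ∨ x ∈ C ∨ x ∈ D ∨ x ∈ E) :
    A.card ≤ B.card + C.card + D.card + E.card := by
  have h1 := cov3 A B C (D ∪ E) (fun x hx => by simpa using h x hx)
  have h2 := card_union_le D E
  omega

theorem cov5 (A B C D E F : Finset V)
    (h : ∀ x, x ∈ A → x ∈ B ∨ x ∈ C ∨ x ∈ D ∨ x ∈ E ∨ x ∈ F) :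
    A.card ≤ B.card + C.card + D.card + E.card + F.card := by
  have h1 := cov4 A B C D (E ∪ F) (fun x hx => by simpa using h x hx)
  have h2 := card_union_le E F
  omega

theorem cov6 (A B C D E F G : Finset V)
    (h : ∀ x, x ∈ A → x ∈ B ∨ x ∈ C ∨ x ∈ D ∨ x ∈ E ∨ x ∈ F ∨ x ∈ G) :
    A.card ≤ B.card + C.card + D.card + E.card + F.card + G.card := by
  have h1 := cov5 A B C D E (F ∪ G) (fun x hx => by simpa using h x hx)
  have h2 := card_union_le F G
  omega

theorem pack2 (A B C D : Finset V) (h : ∀ x, x ∈ A ∨ x ∈ B → x ∈ C)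
    (h' : ∀ x, x ∈ A → x ∈ B → x ∈ D) : A.card + B.card ≤ C.card + D.card := by
  have h1 := card_union_add_card_inter A B
  have h2 := cov1 (A ∪ B) C (fun x hx => h x (mem_union.1 hx))
  have h3 := cov1 (A ∩ B) D (fun x hx => h' x (mem_inter.1 hx).1 (mem_inter.1 hx).2)
  omega

theorem dis2 (A B C : Finset V) (h : ∀ x, x ∈ A ∨ x ∈ B → x ∈ C)
    (h' : ∀ x, x ∈ A → x ∈ B → False) : A.card + B.card ≤ C.card := by
  have := pack2 A B C ∅ h (fun x a b => (h' x a b).elim)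
  simpa using this

theorem dis3 (A B C D : Finset V) (h : ∀ x, x ∈ A ∨ x ∈ B ∨ x ∈ C → x ∈ D)
    (h1 : ∀ x, x ∈ A → x ∈ B → False) (h2 : ∀ x, x ∈ A → x ∈ C → False)
    (h3 : ∀ x, x ∈ B → x ∈ C → False) : A.card + B.card + C.card ≤ D.card := by
  have a1 := dis2 B C (B ∪ C) (fun x hx => mem_union.2 hx) h3
  have a2 := dis2 A (B ∪ C) D (fun x hx => h x (by simpa using hx))
    (fun x ha hb => (mem_union.1 hb).elim (h1 x ha) (h2 x ha))
  omega

/-- a subset of `P` of size `n` close to a given subset `T` -/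
theorem adjust (P T : Finset V) (n : ℕ) (hT : T ⊆ P) (hn : n ≤ P.card) :
    ∃ S, S ⊆ P ∧ S.card = n ∧ (T \ S).card ≤ T.card - n ∧ (S \ T).card ≤ n - T.card ∧
      (T.card ≤ n → T ⊆ S) := by
  rcases le_total T.card n with h | h
  · obtain ⟨S, h1, h2, h3⟩ := exists_subsuperset_card_eq hT h hn
    refine ⟨S, h2, h3, ?_, ?_, fun _ => h1⟩
    · rw [sdiff_eq_empty_iff_subset.2 h1]; simp
    · rw [card_sdiff_of_subset h1]; omega
  · obtain ⟨S, h1, h2⟩ := exists_subset_card_eq h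
    refine ⟨S, h1.trans hT, h2, ?_, ?_, fun h' => ?_⟩
    · rw [card_sdiff_of_subset h1]; omega
    · rw [sdiff_eq_empty_iff_subset.2 h1]; simp
    · have : S = T := eq_of_subset_of_card_le h1 (by omega)
      rw [this]

end Pool.Agent.P.MP_51656a_co
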