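import Pool.Agent.P.MP_51656a_co.Rigid

set_option autoImplicit false

namespace Pool.Agent.P.MP_51656a_co

open Finset

variable {V : Type*} [DecidableEq V] {C : Set (Finset V)} {b e : ℕ}

theorem dict (H : Cores C b e) {a : ℕ} (ha : e ≤ a) (h1 : 1 ≤ a) {X Y Z O2 S2 T2 : Finset V}
    (h : Fr C a X Y Z) (h2 : Fr C a O2 S2 T2) (hP : ∀ x, x ∈ Y ∨ x ∈ Z ↔ x ∈ S2 ∨ x ∈ T2)
    (t : (S2 \ Y).card ≤ (O2 \ X).card + a) : (S2 \ Y).card ≤ 50000000000 * a := by
  have x1 := h.lo1 H ha
  have x2 := h.up1 H ha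
  have y1 := h.s12.lo1 H ha
  have y2 := h.s12.up1 H ha
  have o1 := h2.lo1 H ha
  have o2 := h2.up1 H ha
  have s1 := h2.s12.lo1 H ha
  have s2 := h2.s12.up1 H ha
  have e1 := card_sdiff_add_card_inter Y S2
  have e2 := card_sdiff_add_card_inter S2 Y
  have e3 : (S2 ∩ Y).card = (Y ∩ S2).card := by rw [inter_comm]
  have e4 := card_sdiff_add_card_inter X O2
  have e5 := card_sdiff_add_card_inter O2 X
  have e6 : (O2 ∩ X).card = (X ∩ O2).card := by rw [inter_comm]
  obtain ⟨θ, t1, t2, t3⟩ : ∃ θ, 2 * θ ≤ (Y \ S2).card ∧ 2 * θ ≤ (S2 \ Y).card ∧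
      (S2 \ Y).card ≤ 2 * θ + 9 * a :=
    ⟨min (Y \ S2).card (S2 \ Y).card / 2, by omega, by omega, by omega⟩
  obtain ⟨Y1, hY1, cY1⟩ := exists_subset_card_eq (s := Y \ S2) (n := θ) (by omega)
  obtain ⟨Z1, hZ1, cZ1⟩ := exists_subset_card_eq (s := S2 \ Y) (n := θ) (by omega)
  have hY : ∀ x, x ∈ Y1 → x ∈ Y ∧ x ∉ S2 := fun x hx => mem_sdiff.1 (hY1 hx)
  have hZ : ∀ x, x ∈ Z1 → x ∈ S2 ∧ x ∉ Y := fun x hx => mem_sdiff.1 (hZ1 hx)
  have k1 : (Y \ Y1).card + θ = Y.card := by
    rw [card_sdiff_of_subset (fun x hx => (hY x hx).1)]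
    have := card_le_card (show Y1 ⊆ Y from fun x hx => (hY x hx).1)
    omega
  have k2 : ((S2 \ Y) \ Z1).card + θ = (S2 \ Y).card := by
    rw [card_sdiff_of_subset hZ1]; omega
  have k3 : ((Y \ Y1) ∪ Z1).card = (Y \ Y1).card + Z1.card :=
    card_union_of_disjoint (disjoint_left.2
      (by intro x; have := hZ x; simp only [mem_sdiff]; grind))
  have k4 : ((Y \ Y1) ∪ ((S2 \ Y) \ Z1)).card = (Y \ Y1).card + ((S2 \ Y) \ Z1).card :=
    card_union_of_disjoint (disjoint_left.2 (by intro x; simp only [mem_sdiff]; grind))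
  obtain ⟨O1, f1⟩ := exFr H (a := 14 * a) (by omega) (h.myz.mono (by omega))
    (S := (Y \ Y1) ∪ Z1)
    (by intro x; have := hZ x; have := hP x; simp only [mem_sdiff, mem_union]; grind)
    (by omega) (by omega)
  obtain ⟨O3, f3⟩ := exFr H (a := 14 * a) (by omega) (h.myz.mono (by omega))
    (S := (Y \ Y1) ∪ ((S2 \ Y) \ Z1))
    (by intro x; have := hP x; simp only [mem_sdiff, mem_union]; grind)
    (by omega) (by omega)
  have l1 := lip H (a := 7000 * a) (by omega) (f1.mono (by omega)) (h2.mono (by omega))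
    (by intro x; have := hZ x; have := hP x; simp only [mem_sdiff, mem_union]; grind)
  have c1 := cov1 (S2 \ ((Y \ Y1) ∪ Z1)) ((S2 \ Y) \ Z1)
    (by intro x; have := hY x; simp only [mem_sdiff, mem_union]; grind)
  have c2 := cov2 (X \ O2) ((X \ O1) \ O2) (O1 \ O2)
    (by intro x; simp only [mem_sdiff]; grind)
  have c3 := cov1 (Y \ ((Y \ Y1) ∪ Z1)) Y1
    (by intro x; simp only [mem_sdiff, mem_union]; grind)
  have c4 := dis2 (O1 ∩ X) ((X \ O1) \ O2) X
    (by intro x; simp only [mem_sdiff, mem_inter]; grind)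
    (by intro x; simp only [mem_sdiff, mem_inter]; grind)
  have m1 := move H (a := 63000 * a) (by omega) (f1.mono (by omega)) (h.mono (by omega))
    (f3.mono (by omega))
    (by intro x; have := hZ x; have := hP x; simp only [mem_sdiff, mem_union]; grind)
    (by intro x; have := hZ x; have := hP x; simp only [mem_sdiff, mem_union]; grind)
    (by omega)
    (by intro x; have := hZ x; have := hY x; simp only [mem_sdiff, mem_union]; grind)
  have u3 := f3.up1 H (by omega)
  have c5 := cov1 (((Y ∪ Z) \ ((Y \ Y1) ∪ ((S2 \ Y) \ Z1))) \ ((Y ∪ Z) \ ((Y \ Y1) ∪ Z1))) Z1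
    (by intro x; simp only [mem_sdiff, mem_union]; grind)
  have c6 := pack2 (O1 ∩ O3) (((X \ O1) \ O2) ∩ O3) O3 ∅
    (by intro x; simp only [mem_sdiff, mem_inter]; grind)
    (by intro x; simp only [mem_sdiff, mem_inter]; grind)
  have c7 := cov2 ((X \ O1) \ O2) (((X \ O1) \ O2) ∩ O3) ((X \ O1) \ O3)
    (by intro x; simp only [mem_sdiff, mem_inter]; grind)
  rw [card_empty] at c6
  have m2 := move H (a := 36000000 * a) (by omega) (f1.s23.mono (by omega))
    (f3.s23.mono (by omega)) (h2.s23.mono (by omega))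
    (by intro x; have := hZ x; have := hP x; simp only [mem_sdiff, mem_union]; grind)
    (by intro x; have := hZ x; have := hP x; simp only [mem_sdiff, mem_union]; grind)
    (by omega)
    (by intro x; have := hZ x; have := hP x; have := h2.yz x
        simp only [mem_sdiff, mem_union]; grind)
  have c8 := cov2 ((X \ O1) \ O2) ((X \ O1) \ O3) ((O3 \ O1) \ O2)
    (by intro x; simp only [mem_sdiff]; grind)
  omega

theorem const (H : Cores C b e) {a : ℕ} (ha : e ≤ a) (h1 : 1 ≤ a) {X Y Z O S T : Finset V}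
    (h : Fr C a X Y Z) (h' : Fr C a O S T) (hP : ∀ x, x ∈ Y ∨ x ∈ Z ↔ x ∈ S ∨ x ∈ T) :
    (O \ X).card ≤ 2300000000000000 * a := by
  have o1 := h'.lo1 H ha
  have o2 := h'.up1 H ha
  have l1 := lip H ha h' h.s23 (by intro x; have := hP x; grind)
  obtain ⟨Z1, hZ1, cZ1⟩ := exists_subset_card_eq (s := Z \ S) (n := (O \ X).card - 8 * a)
    (by omega)
  have hZ : ∀ x, x ∈ Z1 → x ∈ Z ∧ x ∉ S := fun x hx => mem_sdiff.1 (hZ1 hx)
  have e1 := card_sdiff_add_card_inter O X
  have k1 : ((O ∩ X) ∪ Z1).card = (O ∩ X).card + Z1.card :=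
    card_union_of_disjoint (disjoint_left.2
      (by intro x; have := hZ x; have := h.xz x; simp only [mem_inter]; grind))
  obtain ⟨O', f⟩ := exFr H (a := 11 * a) (by omega) (h.mxz.mono (by omega))
    (S := (O ∩ X) ∪ Z1)
    (by intro x; have := hZ x; simp only [mem_inter, mem_union]; grind)
    (by omega) (by omega)
  have g := f2 H (a := 5500 * a) (by omega) (f.mono (by omega)) (h'.mxz.mono (by omega))
    (by intro x; have := hZ x; have := hP x; simp only [mem_inter, mem_union]; grind)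
  have c1 := cov2 (O \ X) (O' \ Y)
    ((((O ∪ T) \ ((O ∩ X) ∪ Z1)) \ ((X ∪ Z) \ ((O ∩ X) ∪ Z1))) \ O')
    (by intro x; have := hZ x; have := hP x; have := h'.xy x; have := h'.xz x
        simp only [mem_inter, mem_union, mem_sdiff]; grind)
  have c2 := dis2 (((O ∩ X) ∪ Z1) \ X) ∅ Z1
    (by intro x; simp only [mem_inter, mem_union, mem_sdiff]; grind) (by simp)
  have c3 := cov1 Z1 (((O ∩ X) ∪ Z1) \ X)
    (by intro x; have := hZ x; have := h.xz x; simp only [mem_inter, mem_union, mem_sdiff]; grind)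
  have d := dict H (a := 44000 * a) (by omega) (by omega) (h.s12.mono (by omega))
    (f.mono (by omega))
    (by intro x; have := hZ x; simp only [mem_inter, mem_union, mem_sdiff]; grind)
    (by omega)
  omega

theorem rigid (H : Cores C b e) (h1 : 1 ≤ e) {P : Finset V} (hP : P ∈ C) :
    ∃ U : Finset V, P ⊆ U ∧ U.card ≤ 3 * b + 2501 * e ∧
      ∀ D : Finset V, (∀ Q ∈ C, b ≤ (D ∩ Q).card + e) →
        2 * b ≤ (D ∩ U).card + 2000000000000000000 * e := by
  have m : Mem C e P := ⟨P, hP, by simp, by simp⟩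
  have l := H.lo P hP
  have u := H.up P hP
  have sm := H.small
  obtain ⟨Y, hY, cY⟩ := exists_subset_card_eq (s := P) (n := b) (by omega)
  obtain ⟨X, f⟩ := exFr H le_rfl m hY (by omega) (by omega)
  have x2 := f.up1 H (by omega)
  refine ⟨X ∪ P, subset_union_right, ?_, fun D hD => ?_⟩
  · have := card_union_le X P
    omega
  · obtain ⟨S, t1, t2, -, t3, -⟩ := adjust P (D ∩ P) b inter_subset_right (by omega)
    have d1 := hD P hP
    obtain ⟨O, f'⟩ := exFr H le_rfl m t1 (by omega) (by omega)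
    have hY' : ∀ x, x ∈ Y → x ∈ P := fun x hx => hY hx
    have hS' : ∀ x, x ∈ S → x ∈ P := fun x hx => t1 hx
    have c := const H (a := 500 * e) (by omega) (by omega) f f'
      (by intro x; have := hY' x; have := hS' x; simp only [mem_sdiff]; grind)
    have d2 := f'.mxz.hit hD
    have c1 := cov2 S (D ∩ S) (S \ (D ∩ P))
      (by intro x; have := hS' x; simp only [mem_sdiff, mem_inter]; grind)
    have c2 := cov2 (D ∩ (O ∪ P \ S)) ((D ∩ (O ∪ P \ S)) \ (O \ X)) (O \ X)
      (by intro x; simp only [mem_sdiff, mem_inter, mem_union]; grind)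
    have c3 := dis2 (D ∩ S) ((D ∩ (O ∪ P \ S)) \ (O \ X)) (D ∩ (X ∪ P))
      (by intro x; have := hS' x; simp only [mem_sdiff, mem_inter, mem_union]; grind)
      (by intro x; have := f'.xy x; simp only [mem_sdiff, mem_inter, mem_union]; grind)
    omega

end Pool.Agent.P.MP_51656a_co
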