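import Pool.Agent.P.MP_51656a_co.Sys
import Pool.Agent.P.MP_51656a_co.Rigid2

set_option autoImplicit false

namespace Pool.Agent.P.MP_51656a_co

open Finset

variable {V : Type*} [DecidableEq V]

/-- numerical side conditions -/
structure Par (b e g N : ℕ) : Prop where
  n1 : 1 ≤ N
  k1 : 4 * e + N * (4 * e) ≤ b
  k2 : 18 * b + N * (N * (3 * (4 * e))) ≤ N * g
  k3 : 4 * e ≤ g
  g1 : 1 ≤ g
  k4 : 10000000000000000000000 * g ≤ b

variable {E : Set (Finset V)} {b e g N : ℕ}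

theorem Sys.kill' (H : Sys E b e) (K : Par b e g N) {a : ℕ} (ha : e ≤ a) (ha' : a ≤ 4 * e)
    {P Q T D : Finset V} (hP : P ∈ E) (hQ : Q ∈ E) (t : (P ∩ Q).card ≤ b + a) (hT : T ⊆ P ∩ Q)
    (c : T.card ≤ 4 * e) (hD : D.card ≤ 18 * b) :
    ∃ R, Tri E b a P Q R ∧ (∀ x, x ∈ R → x ∈ T → False) ∧ ((D ∩ R) \ (P ∪ Q)).card ≤ g := by
  have m1 : N * a ≤ N * (4 * e) := Nat.mul_le_mul_left _ ha'
  have m2 : N * (N * (3 * a)) ≤ N * (N * (3 * (4 * e))) :=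
    Nat.mul_le_mul_left _ (Nat.mul_le_mul_left _ (by omega))
  have := K.k1
  have := K.k2
  exact H.kill (N := N) ha K.n1 hP hQ t hT (by omega) (by omega)

/-- one half of the counting in the clone lemma -/
theorem clone_aux {B C G1 G2 G3 F : Finset V} {a : ℕ}
    (w : b ≤ (F ∩ (B ∩ C)).card + ((F ∩ G1) \ (B ∪ C)).card + g + 10 * a)
    (fc : (F ∩ C).card ≤ b + 4 * a) (fg : (F ∩ G1).card ≤ b + 4 * a)
    (s2 : (B ∩ C ∩ G2).card ≤ a) (s3 : (B ∩ C ∩ G3).card ≤ a)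
    (l2 : b ≤ (F ∩ (G1 ∩ G2 ∩ B)).card + (F ∩ ((G2 ∩ C) \ G1)).card + g + 5 * a)
    (l3 : b ≤ (F ∩ (G1 ∩ G3 ∩ B)).card + (F ∩ ((G3 ∩ C) \ G1)).card + g + 5 * a)
    (u3 : (G1 ∩ G3 ∩ B).card + ((G3 ∩ C) \ G1).card ≤ b + g + 9 * a) :
    (((G3 ∩ C) \ G1) \ G2).card + ((G1 ∩ G3 ∩ B) \ G2).card ≤ 4 * g + 39 * a := by
  have c1 := dis3 ((F ∩ (B ∩ C)) \ (G2 ∪ G3)) (F ∩ ((G2 ∩ C) \ G1))
    (F ∩ (((G3 ∩ C) \ G1) \ G2)) (F ∩ C)
    (by intro x; simp only [mem_inter, mem_union, mem_sdiff]; grind)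
    (by intro x; simp only [mem_inter, mem_union, mem_sdiff]; grind)
    (by intro x; simp only [mem_inter, mem_union, mem_sdiff]; grind)
    (by intro x; simp only [mem_inter, mem_sdiff]; grind)
  have c2 := cov3 (F ∩ (B ∩ C)) ((F ∩ (B ∩ C)) \ (G2 ∪ G3)) (B ∩ C ∩ G2) (B ∩ C ∩ G3)
    (by intro x; simp only [mem_inter, mem_union, mem_sdiff]; grind)
  have c3 := dis3 ((F ∩ G1) \ (B ∪ C)) (F ∩ (G1 ∩ G2 ∩ B)) (F ∩ ((G1 ∩ G3 ∩ B) \ G2)) (F ∩ G1)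
    (by intro x; simp only [mem_inter, mem_union, mem_sdiff]; grind)
    (by intro x; simp only [mem_inter, mem_union, mem_sdiff]; grind)
    (by intro x; simp only [mem_inter, mem_union, mem_sdiff]; grind)
    (by intro x; simp only [mem_inter, mem_sdiff]; grind)
  have c4 := dis2 (F ∩ (G1 ∩ G3 ∩ B)) ((G1 ∩ G3 ∩ B) \ F) (G1 ∩ G3 ∩ B)
    (by intro x; simp only [mem_inter, mem_sdiff]; grind)
    (by intro x; simp only [mem_inter, mem_sdiff]; grind)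
  have c5 := dis2 (F ∩ ((G3 ∩ C) \ G1)) (((G3 ∩ C) \ G1) \ F) ((G3 ∩ C) \ G1)
    (by intro x; simp only [mem_inter, mem_sdiff]; grind)
    (by intro x; simp only [mem_inter, mem_sdiff]; grind)
  have c6 := cov2 (((G3 ∩ C) \ G1) \ G2) (F ∩ (((G3 ∩ C) \ G1) \ G2)) (((G3 ∩ C) \ G1) \ F)
    (by intro x; simp only [mem_inter, mem_sdiff]; grind)
  have c7 := cov2 ((G1 ∩ G3 ∩ B) \ G2) (F ∩ ((G1 ∩ G3 ∩ B) \ G2)) ((G1 ∩ G3 ∩ B) \ F)
    (by intro x; simp only [mem_inter, mem_sdiff]; grind)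
  omega

theorem clone_low {B C G1 G F D : Finset V} {a : ℕ} (h : b ≤ (F ∩ G).card)
    (hD : ∀ x, x ∈ G → x ∈ D) (k : ((D ∩ F) \ (G1 ∪ C)).card ≤ g)
    (x1 : ((G1 ∩ G) \ (B ∪ C)).card ≤ 3 * a) (s : (G1 ∩ C ∩ F).card ≤ 2 * a) :
    b ≤ (F ∩ (G1 ∩ G ∩ B)).card + (F ∩ ((G ∩ C) \ G1)).card + g + 5 * a := by
  have c := cov5 (F ∩ G) (F ∩ (G1 ∩ G ∩ B)) (F ∩ ((G ∩ C) \ G1)) ((D ∩ F) \ (G1 ∪ C))
    ((G1 ∩ G) \ (B ∪ C)) (G1 ∩ C ∩ F)
    (by intro x; have := hD x; simp only [mem_inter, mem_union, mem_sdiff]; grind)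
  omega

theorem clone_up {B C G1 G F' : Finset V} {a : ℕ} (gb : (G ∩ B).card ≤ b + 2 * a)
    (gc : (G ∩ C).card ≤ b + 2 * a)
    (l : b ≤ (F' ∩ (G1 ∩ G ∩ C)).card + (F' ∩ ((G ∩ B) \ G1)).card + g + 5 * a) :
    (G1 ∩ G ∩ B).card + ((G ∩ C) \ G1).card ≤ b + g + 9 * a := by
  have c1 := dis2 (G1 ∩ G ∩ B) (F' ∩ ((G ∩ B) \ G1)) (G ∩ B)
    (by intro x; simp only [mem_inter, mem_sdiff]; grind)
    (by intro x; simp only [mem_inter, mem_sdiff]; grind)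
  have c2 := dis2 ((G ∩ C) \ G1) (F' ∩ (G1 ∩ G ∩ C)) (G ∩ C)
    (by intro x; simp only [mem_inter, mem_sdiff]; grind)
    (by intro x; simp only [mem_inter, mem_sdiff]; grind)
  omega

theorem Sys.clone (H : Sys E b e) (K : Par b e g N) {B C G2 G3 : Finset V}
    (h2 : Tri E b (2 * e) B C G2) (h3 : Tri E b (2 * e) B C G3) :
    ((G3 ∩ (B ∪ C)) \ G2).card ≤ 47 * g := by
  have sm := H.small
  have k3 := K.k3
  have s2 := h2.s
  have s3 := h3.s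
  have t0 := cov2 (B ∩ C ∩ (G2 ∪ G3)) (B ∩ C ∩ G2) (B ∩ C ∩ G3)
    (by intro x; simp only [mem_inter, mem_union]; grind)
  obtain ⟨G1, h1, d1⟩ := H.a3 h2.p h2.q h2.t (T := B ∩ C ∩ (G2 ∪ G3)) inter_subset_left (by omega)
  have s1 := h1.s
  obtain ⟨b1, c1⟩ := h1.a1 H (by omega) (by omega)
  obtain ⟨b2, c2⟩ := h2.a1 H (by omega) (by omega)
  obtain ⟨b3, c3⟩ := h3.a1 H (by omega) (by omega)
  have x2 := h2.a2 H (by omega) h1
    (fun x p q r s => d1 x s (by simp only [mem_inter, mem_union]; grind))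
  have x3 := h3.a2 H (by omega) h1
    (fun x p q r s => d1 x s (by simp only [mem_inter, mem_union]; grind))
  have z2 := H.sz G2 h2.r
  have z3 := H.sz G3 h3.r
  have u23 := card_union_le G2 G3
  have t1 := cov1 (G1 ∩ C ∩ B) (B ∩ C ∩ G1) (by intro x; simp only [mem_inter]; grind)
  obtain ⟨F, hF, dF, kF⟩ := H.kill' K (a := 2 * (2 * e)) (by omega) (by omega) h1.r h1.q c1
    (T := G1 ∩ C ∩ B) (D := G2 ∪ G3) inter_subset_left (by omega) (by omega)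
  have zF := H.sz F hF.r
  have u23F := card_union_le (G2 ∪ G3) F
  obtain ⟨F', hF', -, kF'⟩ := H.kill' K (a := 2 * (2 * e)) (by omega) (by omega) h1.r h1.p b1
    (T := ∅) (D := G2 ∪ G3 ∪ F) (empty_subset _) (by simp) (by omega)
  obtain ⟨fg, fc⟩ := hF.a1 H (by omega) (by omega)
  obtain ⟨fg', fb'⟩ := hF'.a1 H (by omega) (by omega)
  have hB : Tri E b (2 * (2 * e)) G1 C B := ⟨h1.r, h1.q, h1.p, c1, by omega⟩
  have xF := hB.a2 H (by omega) hF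
    (fun x p q r s => dF x s (by simp only [mem_inter]; grind))
  have sF := hF.s
  have sF' := hF'.s
  have e2 : (G1 ∩ G2) \ (C ∪ B) = (G1 ∩ G2) \ (B ∪ C) := by rw [union_comm]
  have e3 : (G1 ∩ G3) \ (C ∪ B) = (G1 ∩ G3) \ (B ∪ C) := by rw [union_comm]
  have l2 := clone_low (B := B) (a := 2 * e) (H.h2 F hF.r G2 h2.r)
    (by intro x; simp only [mem_union]; grind) kF x2 sF
  have l3 := clone_low (B := B) (a := 2 * e) (H.h2 F hF.r G3 h3.r)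
    (by intro x; simp only [mem_union]; grind) kF x3 sF
  have l2' := clone_low (B := C) (a := 2 * e) (H.h2 F' hF'.r G2 h2.r)
    (by intro x; simp only [mem_union]; grind) kF' (e2 ▸ x2) sF'
  have l3' := clone_low (B := C) (a := 2 * e) (H.h2 F' hF'.r G3 h3.r)
    (by intro x; simp only [mem_union]; grind) kF' (e3 ▸ x3) sF'
  have u3 := clone_up b3 c3 l3'
  have u3' := clone_up c3 b3 l3
  have p := H.h2 F hF.r F' hF'.r
  have w := cov6 (F ∩ F') (F ∩ F' ∩ (B ∩ C)) ((F ∩ F' ∩ G1) \ (B ∪ C))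
    (((G2 ∪ G3 ∪ F) ∩ F') \ (G1 ∪ B)) ((F ∩ B) \ (G1 ∪ C)) (G1 ∩ C ∩ F) (G1 ∩ B ∩ F')
    (by intro x; simp only [mem_inter, mem_union, mem_sdiff]; grind)
  have w1 := cov1 (F ∩ F' ∩ (B ∩ C)) (F ∩ (B ∩ C)) (by intro x; simp only [mem_inter]; grind)
  have w2 := cov1 (F ∩ F' ∩ (B ∩ C)) (F' ∩ (C ∩ B)) (by intro x; simp only [mem_inter]; grind)
  have w3 := cov1 ((F ∩ F' ∩ G1) \ (B ∪ C)) ((F ∩ G1) \ (B ∪ C))
    (by intro x; simp only [mem_inter, mem_union, mem_sdiff]; grind)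
  have w4 := cov1 ((F ∩ F' ∩ G1) \ (B ∪ C)) ((F' ∩ G1) \ (C ∪ B))
    (by intro x; simp only [mem_inter, mem_union, mem_sdiff]; grind)
  have r1 := clone_aux (a := 2 * e) (g := g) (b := b) (by omega) (by omega) (by omega) s2 s3 l2 l3 u3
  have r2 := clone_aux (a := 2 * e) (g := g) (b := b) (B := C) (C := B) (by omega) (by omega)
    (by omega) (inter_comm B C ▸ s2) (inter_comm B C ▸ s3) l2' l3' u3'
  have f := cov4 ((G3 ∩ (B ∪ C)) \ G2) (((G3 ∩ C) \ G1) \ G2) ((G1 ∩ G3 ∩ B) \ G2)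
    (((G3 ∩ B) \ G1) \ G2) ((G1 ∩ G3 ∩ C) \ G2)
    (by intro x; simp only [mem_inter, mem_union, mem_sdiff]; grind)
  omega

end Pool.Agent.P.MP_51656a_co
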