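import Pool.Agent.P.MP_51656a_co.Clone

set_option autoImplicit false

namespace Pool.Agent.P.MP_51656a_co

open Finset

variable {V : Type*} [DecidableEq V] {E : Set (Finset V)} {b e g N : ℕ}

/-- cores of edges -/
def coreSet (E : Set (Finset V)) (b e : ℕ) : Set (Finset V) :=
  {P | ∃ A B B', Tri E b (2 * e) B B' A ∧ P = A ∩ (B ∪ B')}

theorem Sys.core_hit (H : Sys E b e) (K : Par b e g N) {h : ℕ} {D P : Finset V}
    (c : D.card ≤ 18 * b) (hD : ∀ G ∈ E, b ≤ (D ∩ G).card + h) (hP : P ∈ coreSet E b e) :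
    b ≤ (D ∩ P).card + h + 48 * g := by
  obtain ⟨A, B, B', t, rfl⟩ := hP
  obtain ⟨G, hG, -, k⟩ := H.kill' K (a := 2 * e) (by omega) (by omega) t.p t.q t.t
    (T := ∅) (D := D) (empty_subset _) (by simp) c
  have cl := H.clone K t hG
  have := hD G hG.r
  have := cov3 (D ∩ G) (D ∩ (A ∩ (B ∪ B'))) ((D ∩ G) \ (B ∪ B')) ((G ∩ (B ∪ B')) \ A)
    (by intro x; simp only [mem_inter, mem_union, mem_sdiff]; grind)
  omega

theorem Sys.core_up (H : Sys E b e) {P : Finset V} (hP : P ∈ coreSet E b e) :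
    P.card ≤ 2 * b + e := by
  obtain ⟨A, B, B', t, rfl⟩ := hP
  have := t.s
  have := H.small
  exact H.i1 t.p t.q t.r (by omega)

theorem Sys.core_lo (H : Sys E b e) {P : Finset V} (hP : P ∈ coreSet E b e) :
    2 * b ≤ P.card + 2 * e := by
  obtain ⟨A, B, B', t, rfl⟩ := hP
  have := t.s
  have := pack2 (A ∩ B) (A ∩ B') (A ∩ (B ∪ B')) (B ∩ B' ∩ A)
    (by intro x; simp only [mem_inter, mem_union]; grind)
    (by intro x; simp only [mem_inter]; grind)
  have := H.h2 A t.r B t.p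
  have := H.h2 A t.r B' t.q
  omega

theorem Sys.core_av (H : Sys E b e) {P S : Finset V} (hP : P ∈ coreSet E b e) (hS : S ⊆ P)
    (c : S.card = b) :
    ∃ D ∈ E, (∀ x, x ∈ D → x ∈ S → False) ∧ ∃ R ∈ E, (D ∩ R).card ≤ b + e := by
  have u := H.core_up hP
  obtain ⟨A, B, B', t, rfl⟩ := hP
  obtain ⟨D, hD, d⟩ := H.av S c.le
  have := t.s
  have := H.small
  have c1 := pack2 (A ∩ B ∩ D) (A ∩ B' ∩ D) ((A ∩ (B ∪ B')) \ S) (B ∩ B' ∩ A)
    (by intro x; have := d x; simp only [mem_inter, mem_union, mem_sdiff]; grind)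
    (by intro x; simp only [mem_inter]; grind)
  have c2 := card_sdiff_of_subset hS
  refine ⟨D, hD, d, ?_⟩
  rcases le_total (A ∩ B ∩ D).card (A ∩ B' ∩ D).card with h | h
  · exact H.partner hD t.r t.p (by omega)
  · exact H.partner hD t.r t.q (by omega)

theorem Sys.edge_hit (H : Sys E b e) (K : Par b e g N) {D P : Finset V} (hD : D ∈ E)
    (hP : P ∈ coreSet E b e) : b ≤ (D ∩ P).card + 48 * g := by
  have := H.sz D hD
  have := H.core_hit K (h := 0) (D := D) (by omega) (fun G hG => H.h2 D hD G hG) hP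
  omega

theorem Sys.cores (H : Sys E b e) (K : Par b e g N) : Cores (coreSet E b e) b (96 * g) := by
  have k3 := K.k3
  have k4 := K.k4
  have sm := H.small
  refine ⟨fun P hP => ?_, fun P hP => ?_, fun P hP Q hQ => ?_, fun P hP S hS c => ?_, by omega⟩
  · have := H.core_up hP; omega
  · have := H.core_lo hP; omega
  · have := H.core_up hP
    have := H.core_hit K (h := 48 * g) (D := P) (by omega)
      (fun G hG => inter_comm G P ▸ H.edge_hit K hG hP) hQ
    omega
  · obtain ⟨D, hD, d, R, hR, t⟩ := H.core_av hP hS c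
    obtain ⟨Q, hQ, -⟩ := H.a3 hD hR t (empty_subset _) (by simp)
    obtain ⟨-, q2⟩ := hQ.a1 H le_rfl (by omega)
    have s := hQ.s
    have e1 : R ∩ Q ∩ D = D ∩ R ∩ Q := by ext x; simp only [mem_inter]; grind
    refine ⟨D ∩ (R ∪ Q), ⟨D, R, Q, ⟨hR, hQ.r, hD, inter_comm Q R ▸ q2, by rw [e1]; omega⟩, rfl⟩, ?_⟩
    exact disjoint_left.2 (fun x hx hs => d x (mem_inter.1 hx).1 hs)

theorem Sys.false (H : Sys E b e) (K : Par b e g N) : False := by
  have k3 := K.k3
  have k4 := K.k4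
  have g1 := K.g1
  have sm := H.small
  obtain ⟨B0, hB0, B1, hB1, t0⟩ := H.tight
  obtain ⟨A0, hA0, -⟩ := H.a3 (a := 2 * e) hB0 hB1 (by omega) (empty_subset _) (by simp)
  have hP : A0 ∩ (B0 ∪ B1) ∈ coreSet E b e := ⟨A0, B0, B1, hA0, rfl⟩
  generalize A0 ∩ (B0 ∪ B1) = P at hP
  obtain ⟨U, hU, cU, hit⟩ := rigid (H.cores K) (by omega) hP
  have lo := H.core_lo hP
  obtain ⟨Z, hZ, cZ⟩ := exists_subset_card_eq (s := P) (n := b / 4) (by omega)
  have big : ∀ D ∈ E, ∀ D' ∈ E, (∀ x, x ∈ D → x ∈ Z → False) → (∀ x, x ∈ D' → x ∈ Z → False) →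
      b + b / 4 ≤ (D ∩ D').card + 400000000000000000000 * g := by
    intro D hD D' hD' d d'
    have h1 := hit D (fun Q hQ => by have := H.edge_hit K hD hQ; omega)
    have h2 := hit D' (fun Q hQ => by have := H.edge_hit K hD' hQ; omega)
    have c1 := pack2 (D ∩ U) (D' ∩ U) (U \ Z) (D ∩ D')
      (by intro x; have := d x; have := d' x; simp only [mem_inter, mem_sdiff]; grind)
      (by intro x; simp only [mem_inter]; grind)
    have c2 := card_sdiff_of_subset (hZ.trans hU)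
    have c3 := card_le_card (hZ.trans hU)
    omega
  obtain ⟨S, s1, s2, s3⟩ := exists_subsuperset_card_eq (n := b) hZ (by omega) (by omega)
  obtain ⟨A, hA, dA, B, hB, t⟩ := H.core_av hP s2 s3
  have dA' : ∀ x, x ∈ A → x ∈ Z → False := fun x a z => dA x a (s1 z)
  have ab := H.h2 A hA B hB
  obtain ⟨S2, i2, c2⟩ := exists_subset_card_eq (s := A ∩ B) (n := b - b / 4) (by omega)
  have u2 := card_union_le Z S2
  obtain ⟨D2, hD2, d2⟩ := H.av (Z ∪ S2) (by omega)
  have e1 := dis2 S2 (B ∩ D2 ∩ A) (A ∩ B)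
    (by intro x; have := @i2 x; simp only [mem_inter] at *; grind)
    (by intro x; have := d2 x; simp only [mem_inter, mem_union] at *; grind)
  have e2 := H.i1 hB hD2 hA (by omega)
  have e3 := dis2 S2 (A ∩ D2) (A ∩ (B ∪ D2))
    (by intro x; have := @i2 x; simp only [mem_inter, mem_union] at *; grind)
    (by intro x; have := d2 x; simp only [mem_inter, mem_union] at *; grind)
  have ad := H.h2 A hA D2 hD2
  obtain ⟨S3, i3, c3⟩ := exists_subset_card_eq (s := A ∩ D2) (n := b - b / 4) (by omega)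
  have u3 := card_union_le Z S3
  obtain ⟨D3, hD3, d3⟩ := H.av (Z ∪ S3) (by omega)
  have e4 := dis2 S3 (A ∩ D2 ∩ D3) (A ∩ D2)
    (by intro x; have := @i3 x; simp only [mem_inter] at *; grind)
    (by intro x; have := d3 x; simp only [mem_inter, mem_union] at *; grind)
  obtain ⟨S4, i4, j4, c4⟩ := exists_subsuperset_card_eq (n := b - b / 4)
    (inter_subset_left (s₁ := A ∩ D2) (s₂ := D3)) (by omega) (by omega)
  have u4 := card_union_le Z S4
  obtain ⟨D4, hD4, d4⟩ := H.av (Z ∪ S4) (by omega)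
  have x := H.hX hA hD2 hD3 hD4
    (fun x p q r s => d4 x s (mem_union_right _ (i4 (by simp only [mem_inter]; grind))))
  have e5 := cov2 S4 (((A ∩ D2) \ D4) \ D3) (A ∩ D2 ∩ D3)
    (by intro x; have := @j4 x; have := d4 x
        simp only [mem_inter, mem_union, mem_sdiff] at *; grind)
  have z2 : ∀ x, x ∈ D2 → x ∈ Z → False := fun x a z => d2 x a (mem_union_left _ z)
  have z3 : ∀ x, x ∈ D3 → x ∈ Z → False := fun x a z => d3 x a (mem_union_left _ z)
  have z4 : ∀ x, x ∈ D4 → x ∈ Z → False := fun x a z => d4 x a (mem_union_left _ z)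
  have := big D3 hD3 A hA z3 dA'
  have := big D3 hD3 D2 hD2 z3 z2
  have := big D4 hD4 A hA z4 dA'
  have := big D4 hD4 D2 hD2 z4 z2
  omega

end Pool.Agent.P.MP_51656a_co
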