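import Pool.Agent.P.MP_51656a_co.Final

set_option autoImplicit false

namespace Pool.Agent.P.MP_51656a_co

open Finset

variable {V : Type*} [DecidableEq V]

/-- uniform, locally intersecting, and with no cover of size `b` -/
structure Raw (E : Set (Finset V)) (r b : ℕ) : Prop where
  uni : ∀ P ∈ E, P.card = r
  loc : ∀ S : Finset V, S.card + 3 ≤ 3 * r → ∀ P ∈ E, P ⊆ S → ∃ x, ∀ D ∈ E, D ⊆ S → x ∈ D
  av : ∀ S : Finset V, S.card ≤ b → ∃ D ∈ E, ∀ x, x ∈ D → x ∈ S → False
  r3 : 3 ≤ r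

variable {E : Set (Finset V)} {r b : ℕ}

theorem Raw.two (H : Raw E r b) {P Q : Finset V} (hP : P ∈ E) (hQ : Q ∈ E) :
    1 ≤ (P ∩ Q).card := by
  have := card_union_le P Q
  have := H.uni P hP
  have := H.uni Q hQ
  have := H.r3
  obtain ⟨x, hx⟩ := H.loc (P ∪ Q) (by omega) P hP subset_union_left
  exact card_pos.2 ⟨x, mem_inter.2 ⟨hx P hP subset_union_left, hx Q hQ subset_union_right⟩⟩

theorem Raw.three (H : Raw E r b) {P Q R : Finset V} (hP : P ∈ E) (hQ : Q ∈ E) (hR : R ∈ E)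
    (h : ∀ x, x ∈ P → x ∈ Q → x ∈ R → False) : False := by
  have c1 := card_union_add_card_inter P Q
  have c2 := card_union_add_card_inter (P ∪ Q) R
  have c3 := dis2 (P ∩ R) (Q ∩ R) ((P ∪ Q) ∩ R)
    (by intro x; simp only [mem_inter, mem_union]; grind)
    (by intro x; have := h x; simp only [mem_inter]; grind)
  have := H.uni P hP
  have := H.uni Q hQ
  have := H.uni R hR
  have := H.two hP hQ
  have := H.two hP hR
  have := H.two hQ hR
  obtain ⟨x, hx⟩ := H.loc (P ∪ Q ∪ R) (by omega) R hR subset_union_right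
  exact h x (hx P hP (by intro y; simp only [mem_union]; grind))
    (hx Q hQ (by intro y; simp only [mem_union]; grind)) (hx R hR subset_union_right)

theorem Raw.h2 (H : Raw E r b) {P Q : Finset V} (hP : P ∈ E) (hQ : Q ∈ E) :
    b + 1 ≤ (P ∩ Q).card := by
  by_contra hc
  obtain ⟨R, hR, d⟩ := H.av (P ∩ Q) (by omega)
  exact H.three hP hQ hR (fun x p q r => d x r (mem_inter.2 ⟨p, q⟩))

theorem Raw.h4 (H : Raw E r b) {P Q R D : Finset V} (hP : P ∈ E) (hQ : Q ∈ E) (hR : R ∈ E)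
    (hD : D ∈ E) (h : ∀ x, x ∈ P → x ∈ Q → x ∈ R → x ∈ D → False) :
    (P ∩ Q).card + (R ∩ (P ∪ Q)).card + (D ∩ (P ∪ Q ∪ R)).card ≤ r + 2 := by
  have c1 := card_union_add_card_inter P Q
  have c2 := card_union_add_card_inter (P ∪ Q) R
  have c3 := card_union_add_card_inter (P ∪ Q ∪ R) D
  rw [inter_comm] at c2 c3
  have := H.uni P hP
  have := H.uni Q hQ
  have := H.uni R hR
  have := H.uni D hD
  by_contra hc
  obtain ⟨x, hx⟩ := H.loc (P ∪ Q ∪ R ∪ D) (by omega) D hD subset_union_right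
  exact h x (hx P hP (by intro y; simp only [mem_union]; grind))
    (hx Q hQ (by intro y; simp only [mem_union]; grind))
    (hx R hR (by intro y; simp only [mem_union]; grind)) (hx D hD subset_union_right)

theorem Raw.cover (H : Raw E r b) {K W : Finset V} {w : ℕ} (hK : b ≤ K.card)
    (hw : ∀ D ∈ E, (D ∩ K).card + b ≤ K.card → (D \ W).card ≤ w) (j : ℕ) :
    ∀ M, M ⊆ K → M.card ≤ j * b →
      ∃ S : Finset V, S.card ≤ j * w ∧ ∀ x ∈ M, ∃ D ∈ E, D ⊆ W ∪ S ∧ x ∉ D := by
  induction j with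
  | zero =>
    intro M _ h
    have : M = ∅ := card_eq_zero.1 (by omega)
    exact ⟨∅, by simp, by simp [this]⟩
  | succ j ih =>
    intro M hM h
    obtain ⟨T, t1, t2, t3, -, -⟩ := adjust K M b hM hK
    rw [Nat.succ_mul] at h
    obtain ⟨S, s1, s2⟩ := ih (M \ T) (sdiff_subset.trans hM) (by omega)
    obtain ⟨D, hD, d⟩ := H.av T t2.le
    have c := dis2 (D ∩ K) T K
      (by intro x; have := @t1 x; simp only [mem_inter]; grind)
      (by intro x; have := d x; simp only [mem_inter]; grind)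
    have := hw D hD (by omega)
    have := card_union_le S (D \ W)
    refine ⟨S ∪ (D \ W), by rw [Nat.succ_mul]; omega, fun x hx => ?_⟩
    by_cases hxT : x ∈ T
    · exact ⟨D, hD, by intro y; simp only [mem_union, mem_sdiff]; grind, fun a => d x a hxT⟩
    · obtain ⟨D', hD', i, n⟩ := s2 x (mem_sdiff.2 ⟨hx, hxT⟩)
      exact ⟨D', hD', i.trans (union_subset_union subset_rfl subset_union_left), n⟩

theorem Raw.tight (H : Raw E r b) {e : ℕ} (he : r + 2 ≤ 5 * b + e) (sm : 16 * e ≤ b) :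
    ∃ P ∈ E, ∃ Q ∈ E, (P ∩ Q).card ≤ b + e := by
  obtain ⟨D0, hD0, -⟩ := H.av ∅ (by simp)
  have ex : ∃ m, ∃ P ∈ E, ∃ Q ∈ E, (P ∩ Q).card = m := ⟨_, D0, hD0, D0, hD0, rfl⟩
  classical
  obtain ⟨P, hP, Q, hQ, hm⟩ := Nat.find_spec ex
  have mn : ∀ A ∈ E, ∀ B ∈ E, (P ∩ Q).card ≤ (A ∩ B).card := fun A hA B hB =>
    hm ▸ Nat.find_min' ex ⟨A, hA, B, hB, rfl⟩
  have lo := H.h2 hP hQ
  have key : ∀ D ∈ E, (D ∩ (P ∩ Q)).card + b ≤ (P ∩ Q).card →
      (P ∩ Q).card + b ≤ (D ∩ (P ∪ Q)).card := by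
    intro D hD h
    have := pack2 (D ∩ P) (D ∩ Q) (D ∩ (P ∪ Q)) (D ∩ (P ∩ Q))
      (by intro x; simp only [mem_inter, mem_union]; grind)
      (by intro x; simp only [mem_inter]; grind)
    have := mn D hD P hP
    have := mn D hD Q hQ
    omega
  refine ⟨P, hP, Q, hQ, ?_⟩
  by_cases h2 : (P ∩ Q).card ≤ 2 * b
  · obtain ⟨S, s1, s2⟩ := exists_subset_card_eq (s := P ∩ Q) (n := b) (by omega)
    obtain ⟨R, hR, d⟩ := H.av S s2.le
    have c := dis2 (R ∩ (P ∩ Q)) S (P ∩ Q)
      (by intro x; have := @s1 x; simp only [mem_inter] at *; grind)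
      (by intro x; have := d x; simp only [mem_inter]; grind)
    obtain ⟨T, t1, t2, t3⟩ := exists_subsuperset_card_eq (n := b)
      (inter_subset_right (s₁ := R) (s₂ := P ∩ Q)) (by omega) (by omega)
    obtain ⟨D, hD, d'⟩ := H.av T t3.le
    have c' := dis2 (D ∩ (P ∩ Q)) T (P ∩ Q)
      (by intro x; have := @t2 x; simp only [mem_inter] at *; grind)
      (by intro x; have := d' x; simp only [mem_inter]; grind)
    have h4 := H.h4 hP hQ hR hD
      (fun x p q r s => d' x s (t1 (by simp only [mem_inter]; grind)))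
    have := key R hR (by omega)
    have := key D hD (by omega)
    have := cov1 (D ∩ (P ∪ Q)) (D ∩ (P ∪ Q ∪ R))
      (by intro x; simp only [mem_inter, mem_union]; grind)
    omega
  · exfalso
    have hw : ∀ D ∈ E, (D ∩ (P ∩ Q)).card + b ≤ (P ∩ Q).card →
        (D \ (P ∪ Q)).card ≤ r - ((P ∩ Q).card + b) := by
      intro D hD h
      have := key D hD h
      have := card_sdiff_add_card_inter D (P ∪ Q)
      have := H.uni D hD
      omega
    have c1 := card_union_add_card_inter P Q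
    have := H.uni P hP
    have := H.uni Q hQ
    have := card_le_card (inter_subset_left (s₁ := P) (s₂ := Q))
    have fin : ∀ S : Finset V, (P ∪ Q).card + S.card + 3 ≤ 3 * r →
        (∀ x ∈ P ∩ Q, ∃ D ∈ E, D ⊆ (P ∪ Q) ∪ S ∧ x ∉ D) → False := by
      intro S c h
      have := card_union_le (P ∪ Q) S
      obtain ⟨x, hx⟩ := H.loc ((P ∪ Q) ∪ S) (by omega) P hP
        (by intro y; simp only [mem_union]; grind)
      obtain ⟨D, hD, i, n⟩ := h x (mem_inter.2 ⟨hx P hP (by intro y; simp only [mem_union]; grind),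
        hx Q hQ (by intro y; simp only [mem_union]; grind)⟩)
      exact n (hx D hD i)
    have := H.r3
    by_cases h3 : (P ∩ Q).card ≤ 3 * b
    · obtain ⟨S, s1, s2⟩ := H.cover (by omega) hw 3 (P ∩ Q) subset_rfl h3
      exact fin S (by omega) s2
    · obtain ⟨S, s1, s2⟩ := H.cover (by omega) hw 6 (P ∩ Q) subset_rfl (by omega)
      exact fin S (by omega) s2

theorem Raw.false (H : Raw E r b) {e : ℕ} (he : r + 2 ≤ 5 * b + e) (e1 : 1 ≤ e)
    (sm : 10 ^ 50 * e ≤ b) : False := by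
  have S : Sys E b e :=
    ⟨fun P hP Q hQ => by have := H.h2 hP hQ; omega, H.av,
      fun P hP Q hQ R hR D hD h => by have := H.h4 hP hQ hR hD h; omega,
      fun P hP => by have := H.uni P hP; omega, H.tight he (by omega), by omega⟩
  exact S.false (g := b / 10 ^ 22) (N := 10 ^ 24)
    ⟨by norm_num, by omega, by omega, by omega, by omega, by omega⟩

end Pool.Agent.P.MP_51656a_co
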