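import Pool.Agent.P.MP_51656a_co.Card

set_option autoImplicit false

namespace Pool.Agent.P.MP_51656a_co

open Finset

variable {V : Type*} [DecidableEq V]

/-- families of sets of size about `2 b`, pairwise meeting in about `b` points -/
structure Cores (C : Set (Finset V)) (b e : ℕ) : Prop where
  up : ∀ P ∈ C, P.card ≤ 2 * b + e
  lo : ∀ P ∈ C, 2 * b ≤ P.card + e
  pair : ∀ P ∈ C, ∀ Q ∈ C, b ≤ (P ∩ Q).card + e
  av : ∀ P ∈ C, ∀ S, S ⊆ P → S.card = b → ∃ Q ∈ C, Disjoint Q S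
  small : e ≤ b

/-- `D` is within `a` of a member -/
def Mem (C : Set (Finset V)) (a : ℕ) (D : Finset V) : Prop :=
  ∃ P ∈ C, (D \ P).card ≤ a ∧ (P \ D).card ≤ a

variable {C : Set (Finset V)} {b e : ℕ}

theorem Mem.mono {a a' : ℕ} {D : Finset V} (h : Mem C a D) (ha : a ≤ a') : Mem C a' D := by
  obtain ⟨P, hP, h1, h2⟩ := h
  exact ⟨P, hP, h1.trans ha, h2.trans ha⟩

theorem Mem.congr {a k : ℕ} {D D' : Finset V} (h : Mem C a D) (h1 : (D' \ D).card ≤ k)
    (h2 : (D \ D').card ≤ k) : Mem C (a + k) D' := by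
  obtain ⟨P, hP, p1, p2⟩ := h
  refine ⟨P, hP, ?_, ?_⟩
  · have := cov2 (D' \ P) (D' \ D) (D \ P) (by intro x; simp only [mem_sdiff]; grind)
    omega
  · have := cov2 (P \ D') (P \ D) (D \ D') (by intro x; simp only [mem_sdiff]; grind)
    omega

theorem Mem.up (H : Cores C b e) {a : ℕ} {D : Finset V} (h : Mem C a D) :
    D.card ≤ 2 * b + e + a := by
  obtain ⟨P, hP, p1, p2⟩ := h
  have := cov2 D P (D \ P) (by intro x; simp only [mem_sdiff]; grind)
  have := H.up P hP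
  omega

theorem Mem.lo (H : Cores C b e) {a : ℕ} {D : Finset V} (h : Mem C a D) :
    2 * b ≤ D.card + e + a := by
  obtain ⟨P, hP, p1, p2⟩ := h
  have := cov2 P D (P \ D) (by intro x; simp only [mem_sdiff]; grind)
  have := H.lo P hP
  omega

theorem Mem.hit {a : ℕ} {D D' : Finset V} (h : Mem C a D)
    (hD' : ∀ P ∈ C, b ≤ (D' ∩ P).card + e) : b ≤ (D' ∩ D).card + e + a := by
  obtain ⟨P, hP, p1, p2⟩ := h
  have := cov2 (D' ∩ P) (D' ∩ D) (P \ D) (by intro x; simp only [mem_sdiff, mem_inter]; grind)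
  have := hD' P hP
  omega

theorem Mem.pair (H : Cores C b e) {a a' : ℕ} {D D' : Finset V} (h : Mem C a D)
    (h' : Mem C a' D') : b ≤ (D ∩ D').card + e + a + a' := by
  obtain ⟨P, hP, p1, p2⟩ := h
  obtain ⟨Q, hQ, q1, q2⟩ := h'
  have := cov3 (P ∩ Q) (D ∩ D') (P \ D) (Q \ D')
    (by intro x; simp only [mem_sdiff, mem_inter]; grind)
  have := H.pair P hP Q hQ
  omega

theorem half (H : Cores C b e) {a : ℕ} (ha : e ≤ a) {P S : Finset V} (hP : Mem C a P)
    (hS : S ⊆ P) (s1 : S.card ≤ b + a) (s2 : b ≤ S.card + a) :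
    ∃ O, Disjoint O P ∧ Mem C (7 * a) ((P \ S) ∪ O) := by
  have u := hP.up H
  obtain ⟨P', hP', p1, p2⟩ := hP
  have l := H.lo P' hP'
  have sm := H.small
  obtain ⟨S1, t1, t2, t3, -, -⟩ := adjust P' (S ∩ P') b inter_subset_right (by omega)
  obtain ⟨Q, hQ, dQ⟩ := H.av P' hP' S1 t1 t2
  have dQ' := disjoint_left.1 dQ
  have hS' : ∀ x, x ∈ S → x ∈ P := fun x hx => hS hx
  have c1 : (S ∩ P').card ≤ S.card := card_le_card inter_subset_left
  have c2 := cov2 (Q ∩ S) (P \ P') ((S ∩ P') \ S1)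
    (by intro x; have := hS' x; have := @dQ' x; simp only [mem_sdiff, mem_inter]; grind)
  refine ⟨Q \ P, disjoint_left.2 (by intro x; simp only [mem_sdiff]; grind), Q, hQ, ?_, ?_⟩
  · have c3 := dis3 ((P \ S ∪ Q \ P) \ Q) (Q ∩ (P \ S)) S P
      (by intro x; have := hS' x; simp only [mem_sdiff, mem_inter, mem_union]; grind)
      (by intro x; simp only [mem_sdiff, mem_inter, mem_union]; grind)
      (by intro x; have := hS' x; simp only [mem_sdiff, mem_inter, mem_union]; grind)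
      (by intro x; simp only [mem_sdiff, mem_inter]; grind)
    have c4 := cov3 (Q ∩ P') (Q ∩ (P \ S)) (P' \ P) (Q ∩ S)
      (by intro x; simp only [mem_sdiff, mem_inter]; grind)
    have := H.pair Q hQ P' hP'
    omega
  · have c3 := cov1 (Q \ (P \ S ∪ Q \ P)) (Q ∩ S)
      (by intro x; simp only [mem_sdiff, mem_inter, mem_union]; grind)
    omega

theorem third (H : Cores C b e) {a : ℕ} (ha : e ≤ a) {P Q : Finset V} (hP : Mem C a P)
    (hQ : Mem C a Q) (t : (P ∩ Q).card ≤ b + a) : Mem C (70 * a) ((P \ Q) ∪ (Q \ P)) := by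
  have p := hP.pair H hQ
  obtain ⟨O, dO, hO⟩ := half H (a := 3 * a) (by omega) (hP.mono (by omega))
    (inter_subset_left (s₁ := P) (s₂ := Q)) (by omega) (by omega)
  have dO' := disjoint_left.1 dO
  have p2 := hO.pair H hQ
  have u1 := hO.up H
  have u2 := hQ.up H
  have l1 := hP.lo H
  have c1 := cov1 ((P \ (P ∩ Q) ∪ O) ∩ Q) (O ∩ Q)
    (by intro x; simp only [mem_sdiff, mem_inter, mem_union]; grind)
  have c2 := dis3 (P \ Q) (O ∩ Q) (O \ Q) (P \ (P ∩ Q) ∪ O)
    (by intro x; simp only [mem_sdiff, mem_inter, mem_union]; grind)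
    (by intro x; simp only [mem_sdiff, mem_inter]; grind)
    (by intro x; have := @dO' x; simp only [mem_sdiff]; grind)
    (by intro x; simp only [mem_sdiff, mem_inter]; grind)
  have c3 := cov2 P (P \ Q) (P ∩ Q) (by intro x; simp only [mem_sdiff, mem_inter]; grind)
  have c4 := dis3 (P ∩ Q) (O ∩ Q) ((Q \ P) \ O) Q
    (by intro x; simp only [mem_sdiff, mem_inter]; grind)
    (by intro x; have := @dO' x; simp only [mem_inter]; grind)
    (by intro x; simp only [mem_sdiff, mem_inter]; grind)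
    (by intro x; simp only [mem_sdiff, mem_inter]; grind)
  have c5 := cov1 ((P \ Q ∪ Q \ P) \ (P \ (P ∩ Q) ∪ O)) ((Q \ P) \ O)
    (by intro x; simp only [mem_sdiff, mem_inter, mem_union]; grind)
  have c6 := cov1 ((P \ (P ∩ Q) ∪ O) \ (P \ Q ∪ Q \ P)) (O \ Q)
    (by intro x; have := @dO' x; simp only [mem_sdiff, mem_inter, mem_union]; grind)
  exact (hO.congr (k := 49 * a) (by omega) (by omega)).mono (by omega)

/-- three disjoint blocks all of whose pairwise unions are approximate members -/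
structure Fr (C : Set (Finset V)) (a : ℕ) (X Y Z : Finset V) : Prop where
  xy : ∀ x, x ∈ X → x ∈ Y → False
  xz : ∀ x, x ∈ X → x ∈ Z → False
  yz : ∀ x, x ∈ Y → x ∈ Z → False
  mxy : Mem C a (X ∪ Y)
  mxz : Mem C a (X ∪ Z)
  myz : Mem C a (Y ∪ Z)

theorem Fr.mono {a a' : ℕ} {X Y Z : Finset V} (h : Fr C a X Y Z) (ha : a ≤ a') :
    Fr C a' X Y Z :=
  ⟨h.xy, h.xz, h.yz, h.mxy.mono ha, h.mxz.mono ha, h.myz.mono ha⟩

theorem Fr.s23 {a : ℕ} {X Y Z : Finset V} (h : Fr C a X Y Z) : Fr C a X Z Y :=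
  ⟨h.xz, h.xy, fun x a b => h.yz x b a, h.mxz, h.mxy, union_comm Y Z ▸ h.myz⟩

theorem Fr.s12 {a : ℕ} {X Y Z : Finset V} (h : Fr C a X Y Z) : Fr C a Y X Z :=
  ⟨fun x a b => h.xy x b a, h.yz, h.xz, union_comm X Y ▸ h.mxy, h.myz, h.mxz⟩

theorem Fr.lo1 (H : Cores C b e) {a : ℕ} (ha : e ≤ a) {X Y Z : Finset V} (h : Fr C a X Y Z) :
    b ≤ X.card + 3 * a := by
  have p := h.mxy.pair H h.mxz
  have c := cov1 ((X ∪ Y) ∩ (X ∪ Z)) X
    (by intro x; have := h.yz x; simp only [mem_inter, mem_union]; grind)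
  omega

theorem Fr.up1 (H : Cores C b e) {a : ℕ} (ha : e ≤ a) {X Y Z : Finset V} (h : Fr C a X Y Z) :
    X.card ≤ b + 5 * a := by
  have p := h.s12.lo1 H ha
  have u := h.mxy.up H
  have c := dis2 X Y (X ∪ Y) (by intro x; simp only [mem_union]; grind) h.xy
  omega

theorem exFr (H : Cores C b e) {a : ℕ} (ha : e ≤ a) {P S : Finset V} (hP : Mem C a P)
    (hS : S ⊆ P) (s1 : S.card ≤ b + a) (s2 : b ≤ S.card + a) :
    ∃ O, Fr C (500 * a) O S (P \ S) := by
  obtain ⟨O, dO, hO⟩ := half H ha hP hS s1 s2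
  have dO' := disjoint_left.1 dO
  have hS' : ∀ x, x ∈ S → x ∈ P := fun x hx => hS hx
  have u := hP.up H
  have c1 := dis2 (P ∩ (P \ S ∪ O)) S P
    (by intro x; have := hS' x; simp only [mem_inter]; grind)
    (by intro x; have := hS' x; have := @dO' x; simp only [mem_sdiff, mem_inter, mem_union]; grind)
  have t := third H (a := 7 * a) (by omega) (hP.mono (by omega)) hO (by omega)
  have e1 : P \ (P \ S ∪ O) ∪ (P \ S ∪ O) \ P = O ∪ S := by
    ext x; have := hS' x; have := @dO' x; simp only [mem_sdiff, mem_union]; grind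
  have e2 : S ∪ P \ S = P := union_sdiff_of_subset hS
  rw [e1] at t
  refine ⟨O, fun x a b => dO' a (hS b), fun x a b => dO' a (mem_sdiff.1 b).1,
    fun x a b => (mem_sdiff.1 b).2 a, t.mono (by omega), ?_, ?_⟩
  · rw [union_comm]; exact hO.mono (by omega)
  · rw [e2]; exact hP.mono (by omega)

theorem lip (H : Cores C b e) {a : ℕ} (ha : e ≤ a) {O S T O' S' T' : Finset V}
    (h : Fr C a O S T) (h' : Fr C a O' S' T') (hP : ∀ x, x ∈ S ∨ x ∈ T ↔ x ∈ S' ∨ x ∈ T') :
    (O \ O').card ≤ (S' \ S).card + 8 * a := by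
  have p := h.mxz.pair H h'.mxy
  have u := h.up1 H ha
  have c1 := cov2 ((O ∪ T) ∩ (O' ∪ S')) (S' \ S) (O ∩ O')
    (by intro x; have := hP x; have := h.xy x; have := h.xz x; have := h.yz x
        have := h'.xy x; have := h'.xz x
        simp only [mem_sdiff, mem_inter, mem_union]; grind)
  have c2 := card_sdiff_add_card_inter O O'
  omega

theorem f2 (H : Cores C b e) {a : ℕ} (ha : e ≤ a) {O S T D : Finset V}
    (h : Fr C a O S T) (hD : Mem C a D) (hS : ∀ x, x ∈ S → x ∈ D) :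
    (((D \ S) \ T) \ O).card ≤ 8 * a := by
  have p := hD.pair H h.mxz
  have u := hD.up H
  have l := h.s12.lo1 H ha
  have c := dis3 (((D \ S) \ T) \ O) S (D ∩ (O ∪ T)) D
    (by intro x; have := hS x; simp only [mem_sdiff, mem_inter]; grind)
    (by intro x; simp only [mem_sdiff]; grind)
    (by intro x; simp only [mem_sdiff, mem_inter, mem_union]; grind)
    (by intro x; have := h.xy x; have := h.yz x; simp only [mem_inter, mem_union]; grind)
  omega

theorem move (H : Cores C b e) {a : ℕ} (ha : e ≤ a) {O S T O' S' T' O'' S'' T'' : Finset V}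
    (h : Fr C a O S T) (h' : Fr C a O' S' T') (h'' : Fr C a O'' S'' T'')
    (hP : ∀ x, x ∈ S ∨ x ∈ T ↔ x ∈ S' ∨ x ∈ T') (hP' : ∀ x, x ∈ S ∨ x ∈ T ↔ x ∈ S'' ∨ x ∈ T'')
    (t : (S' \ S).card + (O ∩ O').card ≤ b + a) (d : ∀ x, x ∈ S'' → (x ∈ S ↔ x ∈ S')) :
    ((O' \ O) \ O'').card ≤ 560 * a := by
  have c1 := cov2 ((O ∪ T) ∩ (O' ∪ S')) (S' \ S) (O ∩ O')
    (by intro x; have := hP x; have := h.xy x; have := h.xz x; have := h.yz x
        have := h'.xy x; have := h'.xz x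
        simp only [mem_sdiff, mem_inter, mem_union]; grind)
  have m := third H ha h.mxz h'.mxy (by omega)
  have f := f2 H (a := 70 * a) (by omega) (h''.mono (by omega)) m
    (by intro x; have := hP x; have := hP' x; have := h.xy x; have := h.xz x; have := h.yz x
        have := h'.xy x; have := h'.xz x; have := h'.yz x; have := d x
        simp only [mem_sdiff, mem_union]; grind)
  have c2 := cov1 ((O' \ O) \ O'')
    (((((O ∪ T) \ (O' ∪ S') ∪ (O' ∪ S') \ (O ∪ T)) \ S'') \ T'') \ O'')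
    (by intro x; have := hP x; have := hP' x
        have := h'.xy x; have := h'.xz x
        simp only [mem_sdiff, mem_union]; grind)
  omega

end Pool.Agent.P.MP_51656a_co
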