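import Pool.Agent.P.MP_51656a_co.Card

set_option autoImplicit false

namespace Pool.Agent.P.MP_51656a_co

open Finset

variable {V : Type*} [DecidableEq V]

/-- the consequences of the local condition and of a large covering number that are used -/
structure Sys (E : Set (Finset V)) (b e : ℕ) : Prop where
  h2 : ∀ P ∈ E, ∀ Q ∈ E, b ≤ (P ∩ Q).card
  av : ∀ S : Finset V, S.card ≤ b → ∃ D ∈ E, ∀ x, x ∈ D → x ∈ S → False
  h4 : ∀ P ∈ E, ∀ Q ∈ E, ∀ R ∈ E, ∀ D ∈ E, (∀ x, x ∈ P → x ∈ Q → x ∈ R → x ∈ D → False) →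
    (P ∩ Q).card + (R ∩ (P ∪ Q)).card + (D ∩ (P ∪ Q ∪ R)).card ≤ 5 * b + e
  sz : ∀ P ∈ E, P.card ≤ 6 * b
  tight : ∃ P ∈ E, ∃ Q ∈ E, (P ∩ Q).card ≤ b + e
  small : 16 * e ≤ b

variable {E : Set (Finset V)} {b e : ℕ}

theorem Sys.hX (H : Sys E b e) {P Q R D : Finset V} (hP : P ∈ E) (hQ : Q ∈ E) (hR : R ∈ E)
    (hD : D ∈ E) (h : ∀ x, x ∈ P → x ∈ Q → x ∈ R → x ∈ D → False) :
    (R ∩ P).card + (R ∩ Q).card + (D ∩ P).card + (D ∩ Q).card + (((P ∩ Q) \ D) \ R).card +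
      ((D ∩ R) \ (P ∪ Q)).card ≤ 5 * b + e := by
  have h4 := H.h4 P hP Q hQ R hR D hD h
  have c1 := pack2 (R ∩ P) (R ∩ Q) (R ∩ (P ∪ Q)) (P ∩ Q ∩ R)
    (by intro x; simp only [mem_inter, mem_union]; grind)
    (by intro x; simp only [mem_inter]; grind)
  have c2 := pack2 (D ∩ P) (D ∩ Q) (D ∩ (P ∪ Q)) (P ∩ Q ∩ D)
    (by intro x; simp only [mem_inter, mem_union]; grind)
    (by intro x; simp only [mem_inter]; grind)
  have c3 := dis2 (D ∩ (P ∪ Q)) ((D ∩ R) \ (P ∪ Q)) (D ∩ (P ∪ Q ∪ R))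
    (by intro x; simp only [mem_inter, mem_union, mem_sdiff]; grind)
    (by intro x; simp only [mem_inter, mem_union, mem_sdiff]; grind)
  have c4 := dis3 (((P ∩ Q) \ D) \ R) (P ∩ Q ∩ R) (P ∩ Q ∩ D) (P ∩ Q)
    (by intro x; simp only [mem_inter, mem_sdiff]; grind)
    (by intro x; simp only [mem_inter, mem_sdiff]; grind)
    (by intro x; simp only [mem_inter, mem_sdiff]; grind)
    (by intro x; have := h x; simp only [mem_inter]; grind)
  omega

theorem Sys.i1 (H : Sys E b e) {P Q R : Finset V} (hP : P ∈ E) (hQ : Q ∈ E) (hR : R ∈ E)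
    (h : (P ∩ Q ∩ R).card ≤ b) : (R ∩ (P ∪ Q)).card ≤ 2 * b + e := by
  obtain ⟨S, s1, s2, s3⟩ := exists_subsuperset_card_eq
    (inter_subset_left (s₁ := P ∩ Q) (s₂ := R)) h (H.h2 P hP Q hQ)
  obtain ⟨D, hD, d⟩ := H.av S s3.le
  have h4 := H.h4 P hP Q hQ R hR D hD
    (fun x a b c d' => d x d' (s1 (by simp only [mem_inter]; grind)))
  have c2 := pack2 (D ∩ P) (D ∩ Q) (D ∩ (P ∪ Q ∪ R)) (P ∩ Q ∩ D)
    (by intro x; simp only [mem_inter, mem_union]; grind)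
    (by intro x; simp only [mem_inter]; grind)
  have c3 := dis2 S (P ∩ Q ∩ D) (P ∩ Q)
    (by intro x; have := @s2 x; simp only [mem_inter] at *; grind)
    (by intro x; have := d x; simp only [mem_inter]; grind)
  have := H.h2 D hD P hP
  have := H.h2 D hD Q hQ
  omega

theorem Sys.partner' (H : Sys E b e) {D A : Finset V} (hD : D ∈ E) (hA : A ∈ E)
    (h : (D ∩ A).card ≤ 2 * b) : ∃ R ∈ E, (D ∩ R).card ≤ b + e := by
  obtain ⟨S, s1, s2⟩ := exists_subset_card_eq (H.h2 D hD A hA)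
  obtain ⟨R, hR, d⟩ := H.av S s2.le
  have c1 := dis2 S (A ∩ R ∩ D) (D ∩ A)
    (by intro x; have := @s1 x; simp only [mem_inter] at *; grind)
    (by intro x; have := d x; simp only [mem_inter]; grind)
  have i := H.i1 hA hR hD (by omega)
  have c2 := dis2 S (D ∩ R) (D ∩ (A ∪ R))
    (by intro x; have := @s1 x; simp only [mem_inter, mem_union] at *; grind)
    (by intro x; have := d x; simp only [mem_inter]; grind)
  exact ⟨R, hR, by omega⟩

theorem Sys.partner (H : Sys E b e) {D P Q : Finset V} (hD : D ∈ E) (hP : P ∈ E) (hQ : Q ∈ E)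
    (h : (P ∩ Q ∩ D).card ≤ b) : ∃ R ∈ E, (D ∩ R).card ≤ b + e := by
  have i := H.i1 hP hQ hD h
  have c1 := pack2 (D ∩ P) (D ∩ Q) (D ∩ (P ∪ Q)) (P ∩ Q ∩ D)
    (by intro x; simp only [mem_inter, mem_union]; grind)
    (by intro x; simp only [mem_inter]; grind)
  have := H.small
  rcases le_total (D ∩ P).card (D ∩ Q).card with h' | h'
  · exact H.partner' hD hP (by omega)
  · exact H.partner' hD hQ (by omega)

/-- `P`, `Q` meet in few points and `R` avoids almost all of them -/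
structure Tri (E : Set (Finset V)) (b a : ℕ) (P Q R : Finset V) : Prop where
  p : P ∈ E
  q : Q ∈ E
  r : R ∈ E
  t : (P ∩ Q).card ≤ b + a
  s : (P ∩ Q ∩ R).card ≤ a

theorem Tri.a1 (H : Sys E b e) {a : ℕ} (ha : e ≤ a) (hb : a ≤ b) {P Q R : Finset V}
    (h : Tri E b a P Q R) : (R ∩ P).card ≤ b + 2 * a ∧ (R ∩ Q).card ≤ b + 2 * a := by
  have s := h.s
  have i := H.i1 h.p h.q h.r (by omega)
  have c1 := pack2 (R ∩ P) (R ∩ Q) (R ∩ (P ∪ Q)) (P ∩ Q ∩ R)
    (by intro x; simp only [mem_inter, mem_union]; grind)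
    (by intro x; simp only [mem_inter]; grind)
  have := H.h2 R h.r P h.p
  have := H.h2 R h.r Q h.q
  omega

theorem Tri.a2 (H : Sys E b e) {a : ℕ} (ha : e ≤ a) {P Q R D : Finset V}
    (h : Tri E b a P Q R) (h' : Tri E b a P Q D)
    (hx : ∀ x, x ∈ P → x ∈ Q → x ∈ R → x ∈ D → False) :
    ((D ∩ R) \ (P ∪ Q)).card ≤ 3 * a := by
  have x := H.hX h.p h.q h.r h'.r hx
  have := h.s
  have := h'.s
  have c := cov3 (P ∩ Q) (((P ∩ Q) \ D) \ R) (P ∩ Q ∩ R) (P ∩ Q ∩ D)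
    (by intro x; simp only [mem_inter, mem_sdiff]; grind)
  have := H.h2 P h.p Q h.q
  have := H.h2 R h.r P h.p
  have := H.h2 R h.r Q h.q
  have := H.h2 D h'.r P h.p
  have := H.h2 D h'.r Q h.q
  omega

theorem Sys.a3 (H : Sys E b e) {a : ℕ} {P Q T : Finset V} (hP : P ∈ E) (hQ : Q ∈ E)
    (t : (P ∩ Q).card ≤ b + a) (hT : T ⊆ P ∩ Q) (c : T.card ≤ b) :
    ∃ R, Tri E b a P Q R ∧ ∀ x, x ∈ R → x ∈ T → False := by
  obtain ⟨S, s1, s2, s3⟩ := exists_subsuperset_card_eq hT c (H.h2 P hP Q hQ)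
  obtain ⟨R, hR, d⟩ := H.av S s3.le
  have c3 := dis2 S (P ∩ Q ∩ R) (P ∩ Q)
    (by intro x; have := @s2 x; simp only [mem_inter] at *; grind)
    (by intro x; have := d x; simp only [mem_inter]; grind)
  exact ⟨R, ⟨hP, hQ, hR, t, by omega⟩, fun x a b => d x a (s1 b)⟩

theorem Sys.kill (H : Sys E b e) {a N η : ℕ} (ha : e ≤ a) (hN : 1 ≤ N) {P Q T D : Finset V}
    (hP : P ∈ E) (hQ : Q ∈ E) (t : (P ∩ Q).card ≤ b + a) (hT : T ⊆ P ∩ Q)
    (c : T.card + N * a ≤ b) (hD : D.card + N * (N * (3 * a)) ≤ N * η) :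
    ∃ R, Tri E b a P Q R ∧ (∀ x, x ∈ R → x ∈ T → False) ∧ ((D ∩ R) \ (P ∪ Q)).card ≤ η := by
  by_contra hc
  have hc' : ∀ R, Tri E b a P Q R → (∀ x, x ∈ R → x ∈ T → False) →
      η + 1 ≤ ((D ∩ R) \ (P ∪ Q)).card := by
    intro R h1 h2
    by_contra h3
    exact hc ⟨R, h1, h2, by omega⟩
  have key : ∀ j, j ≤ N → ∃ T' U : Finset V, T ⊆ T' ∧ T' ⊆ P ∩ Q ∧ T'.card ≤ T.card + j * a ∧
      U ⊆ D ∧ j * (η + 1) ≤ U.card + j * (N * (3 * a)) ∧
      ∀ R, Tri E b a P Q R → (∀ x, x ∈ R → x ∈ T' → False) → (R ∩ U).card ≤ j * (3 * a) := by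
    intro j
    induction j with
    | zero => intro _; exact ⟨T, ∅, subset_rfl, hT, by simp, by simp, by simp, by simp⟩
    | succ j ih =>
      intro hj
      obtain ⟨T', U, i1, i2, i3, i4, i5, i6⟩ := ih (by omega)
      have m1 : j * a ≤ N * a := Nat.mul_le_mul_right _ (by omega)
      have m2 : j * (3 * a) ≤ N * (3 * a) := Nat.mul_le_mul_right _ (by omega)
      obtain ⟨R, hR, d⟩ := H.a3 hP hQ t i2 (by omega)
      have w := hc' R hR (fun x a b => d x a (i1 b))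
      have u := i6 R hR d
      refine ⟨T' ∪ (P ∩ Q ∩ R), U ∪ ((D ∩ R) \ (P ∪ Q)), i1.trans subset_union_left,
        union_subset i2 inter_subset_left, ?_, ?_, ?_, ?_⟩
      · have := card_union_le T' (P ∩ Q ∩ R)
        have := hR.s
        rw [Nat.succ_mul]; omega
      · intro x; have := @i4 x; simp only [mem_inter, mem_union, mem_sdiff]; grind
      · have := pack2 U ((D ∩ R) \ (P ∪ Q)) (U ∪ ((D ∩ R) \ (P ∪ Q))) (R ∩ U)
          (by intro x; simp only [mem_union]; grind)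
          (by intro x; simp only [mem_inter, mem_union, mem_sdiff]; grind)
        rw [Nat.succ_mul, Nat.succ_mul]; omega
      · intro R' hR' d'
        have v := i6 R' hR' (fun x a b => d' x a (mem_union_left _ b))
        have v2 := hR.a2 H ha hR'
          (fun x a b c d => d' x d (mem_union_right _ (by simp only [mem_inter]; grind)))
        have := cov2 (R' ∩ (U ∪ ((D ∩ R) \ (P ∪ Q)))) (R' ∩ U) ((R' ∩ R) \ (P ∪ Q))
          (by intro x; simp only [mem_inter, mem_union, mem_sdiff]; grind)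
        rw [Nat.succ_mul]; omega
  obtain ⟨T', U, -, -, -, i4, i5, -⟩ := key N le_rfl
  have := card_le_card i4
  rw [Nat.mul_succ] at i5
  omega

end Pool.Agent.P.MP_51656a_co
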